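import Pool.Agent.H174.GP.StG

/-!
# Project GP (helper174): the exponent is at most `1/2` (helper295)
-/

set_option autoImplicit false

open MeasureTheory ProbabilityTheory Finset Filter Topology

namespace Pool.Agent.H295.GP174

open Pool.Agent.H174.GP

theorem uu_ge (h1 : S_abel) (h2 : S_sparre) (L : ℕ) : 1 / (2 * Real.sqrt (L + 1)) ≤ uu L := by
  refine (h2 L).trans ?_
  unfold uu
  refine measureReal_mono ?_ (measure_ne_top _ _)
  intro ω hω x hx
  obtain ⟨hx1, hx2⟩ := Finset.mem_Icc.1 hx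
  rw [h1 ω L x hx1 hx2]
  refine add_nonneg (Finset.sum_nonneg fun j hj => ?_) (mul_nonneg (by positivity) ?_)
  · obtain ⟨hj1, hj2⟩ := Finset.mem_Ico.1 hj
    exact mul_nonneg (by positivity) (hω j (Finset.mem_Icc.2 ⟨hx1.trans hj1, hj2.le⟩))
  · exact hω L (Finset.mem_Icc.2 ⟨hx1.trans hx2, le_rfl⟩)

theorem gp_thhalf (h1 : S_abel) (h2 : S_sparre) : Pool.Agent.H174.GP.S_thhalf := by
  intro θ hθ
  have hlim : Tendsto (fun L : ℕ => 1 / 2 + (3 / 2 * Real.log 2) / Real.log L) atTop
      (𝓝 (1 / 2 + 0)) := by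
    refine tendsto_const_nhds.add ?_
    exact Tendsto.const_div_atTop (Real.tendsto_log_atTop.comp tendsto_natCast_atTop_atTop) _
  rw [add_zero] at hlim
  refine le_of_tendsto_of_tendsto hθ hlim ?_
  filter_upwards [eventually_ge_atTop 2] with L hL
  have hL0 : (2 : ℝ) ≤ L := by exact_mod_cast hL
  have hlog : 0 < Real.log L := Real.log_pos (by linarith)
  have hu := uu_ge h1 h2 L
  have hs : 0 < Real.sqrt (L + 1) := Real.sqrt_pos.2 (by linarith)
  have hpos : 0 < 1 / (2 * Real.sqrt (L + 1)) := by positivity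
  have h3 : -Real.log (uu L) ≤ Real.log 2 + 1 / 2 * Real.log (L + 1) := by
    have h4 := Real.log_le_log hpos hu
    rw [one_div, Real.log_inv, Real.log_mul two_ne_zero hs.ne', Real.log_sqrt (by linarith)] at h4
    linarith
  have h4 : Real.log (L + 1) ≤ Real.log 2 + Real.log L := by
    rw [← Real.log_mul two_ne_zero (by linarith)]
    exact Real.log_le_log (by linarith) (by linarith)
  have h5 : 1 / 2 + (3 / 2 * Real.log 2) / Real.log L =
      (1 / 2 * Real.log L + 3 / 2 * Real.log 2) / Real.log L := by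
    field_simp
  rw [h5]
  exact div_le_div_of_nonneg_right (by linarith) hlog.le

end Pool.Agent.H295.GP174
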